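import Pool.Agent.Helper27.Mess.Defs

set_option autoImplicit false

namespace Pool.Agent.Helper27.Mess

open Finset

universe u v w

section liftZ

variable {Γ : Type u} {N : Type*} [AddCommGroup N]

/-- The additive map out of `ℤ[Γ]` with given values on group elements. -/
noncomputable def liftZ (φ : Γ → N) : MonoidAlgebra ℤ Γ →+ N :=
  (Finsupp.liftAddHom fun g => zmultiplesHom N (φ g)).comp
    (MonoidAlgebra.coeffAddEquiv (R := ℤ) (M := Γ)).toAddMonoidHom

theorem liftZ_single (φ : Γ → N) (g : Γ) (n : ℤ) :
    liftZ φ (MonoidAlgebra.single g n) = n • φ g := by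
  show (Finsupp.liftAddHom fun g => zmultiplesHom N (φ g)) (Finsupp.single g n) = n • φ g
  simp

theorem liftZ_ext {f g : MonoidAlgebra ℤ Γ →+ N}
    (h : ∀ γ, f (MonoidAlgebra.single γ 1) = g (MonoidAlgebra.single γ 1)) : f = g := by
  refine MonoidAlgebra.addMonoidHom_ext fun γ n => ?_
  have e : (MonoidAlgebra.single γ n : MonoidAlgebra ℤ Γ) = n • MonoidAlgebra.single γ 1 := by
    rw [MonoidAlgebra.smul_single]; simp
  rw [e, map_zsmul, map_zsmul, h]

end liftZ

section

variable {Γ : Type u} [Group Γ]

section actHom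

variable {C : Type v} [AddCommGroup C] [Module (MonoidAlgebra ℤ Γ) C]

/-- the action as an additive map -/
noncomputable def actHom (g : Γ) : C →+ C where
  toFun := act g
  map_zero' := act_zero g
  map_add' := act_add g

@[simp] theorem actHom_apply (g : Γ) (x : C) : actHom g x = act g x := rfl

/-- the norm element `1 + t + ... + t^(m-1)` -/
noncomputable def normHom (t : Γ) (m : ℕ) : C →+ C := ∑ i ∈ range m, actHom (t ^ i)

theorem normHom_apply (t : Γ) (m : ℕ) (x : C) :
    normHom t m x = ∑ i ∈ range m, act (t ^ i) x := by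
  simp [normHom, AddMonoidHom.finsetSum_apply]

end actHom

theorem act_single (g γ : Γ) (n : ℤ) :
    act g (MonoidAlgebra.single γ n : MonoidAlgebra ℤ Γ) = MonoidAlgebra.single (g * γ) n := by
  rw [act_def, smul_eq_mul, MonoidAlgebra.of_apply, MonoidAlgebra.single_mul_single, one_mul]

/-- The two exactness statements for the regular module, in functional form. -/
theorem regular_exact (t : Γ) (m : ℕ) (hm : 0 < m) (ht : orderOf t = m) :
    ∃ k h : MonoidAlgebra ℤ Γ → MonoidAlgebra ℤ Γ, k 0 = 0 ∧ h 0 = 0 ∧
      (∀ x, act t x = x → normHom t m (k x) = x) ∧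
      (∀ x, normHom t m x = 0 → act t (h x) - h x = x) := by
  classical
  -- representatives
  let rel := QuotientGroup.rightRel (Subgroup.zpowers t)
  let σ : Γ → Γ := fun γ => (Quotient.mk rel γ).out
  have hσ : ∀ γ, ∃ j, j < m ∧ γ = t ^ j * σ γ := by
    intro γ
    have h1 : rel (σ γ) γ := Quotient.exact (Quotient.out_eq (Quotient.mk rel γ))
    rw [QuotientGroup.rightRel_apply] at h1
    have hfin : IsOfFinOrder t := by
      rw [← orderOf_pos_iff, ht]; exact hm
    obtain ⟨j, hj, hj'⟩ := (hfin.mem_zpowers_iff_mem_range_orderOf (y := γ * (σ γ)⁻¹)).1 h1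
      |> fun h => by simpa using h
    refine ⟨j, by rw [← ht]; exact hj, ?_⟩
    rw [hj', inv_mul_cancel_right]
  have hσt : ∀ γ, σ (t * γ) = σ γ := by
    intro γ
    show (Quotient.mk rel (t * γ)).out = (Quotient.mk rel γ).out
    congr 1
    apply Quotient.sound
    show rel (t * γ) γ
    rw [QuotientGroup.rightRel_apply]
    have : γ * (t * γ)⁻¹ = t⁻¹ := by group
    rw [this]
    exact inv_mem (Subgroup.mem_zpowers t)
  have hσt' : ∀ (i : ℕ) γ, σ (t ^ i * γ) = σ γ := by
    intro i
    induction i with
    | zero => intro γ; simp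
    | succ i ih => intro γ; rw [pow_succ', mul_assoc, hσt, ih]
  choose J hJm hJ using hσ
  have huniq : ∀ γ i, i < m → γ = t ^ i * σ γ → i = J γ := by
    intro γ i hi he
    have h2 : t ^ i = t ^ J γ := by
      have := he.symm.trans (hJ γ)
      exact mul_right_cancel this
    exact pow_injOn_Iio_orderOf (by simpa [ht] using hi) (by simpa [ht] using hJm γ) h2
  -- the additive maps
  let p : MonoidAlgebra ℤ Γ →+ MonoidAlgebra ℤ Γ := liftZ fun γ => MonoidAlgebra.single (σ γ) 1
  let h : MonoidAlgebra ℤ Γ →+ MonoidAlgebra ℤ Γ :=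
    liftZ fun γ => ∑ i ∈ range (J γ), MonoidAlgebra.single (t ^ i * σ γ) 1
  let k : MonoidAlgebra ℤ Γ →+ MonoidAlgebra ℤ Γ :=
    liftZ fun γ => if J γ = 0 then MonoidAlgebra.single γ 1 else 0
  have I1 : ∀ x, act t (h x) - h x = x - p x := by
    have : (actHom t).comp h - h = AddMonoidHom.id _ - p := by
      refine liftZ_ext fun γ => ?_
      simp only [AddMonoidHom.sub_apply, AddMonoidHom.comp_apply, actHom_apply,
        AddMonoidHom.id_apply, h, p, liftZ_single, one_smul]
      rw [act_sum, ← Finset.sum_sub_distrib]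
      simp only [act_single, ← mul_assoc, ← pow_succ']
      rw [Finset.sum_range_sub (fun i => (MonoidAlgebra.single (t ^ i * σ γ) 1 :
        MonoidAlgebra ℤ Γ))]
      rw [← hJ γ, pow_zero, one_mul]
    intro x
    exact DFunLike.congr_fun this x
  have I2 : ∀ x, p (normHom t m x) = m • p x := by
    have : p.comp (normHom t m) = m • p := by
      refine liftZ_ext fun γ => ?_
      simp only [AddMonoidHom.comp_apply, normHom_apply, map_sum, act_single,
        AddMonoidHom.nsmul_apply, p, liftZ_single, one_smul, hσt']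
      simp
    intro x
    exact DFunLike.congr_fun this x
  have I3 : ∀ x, ∑ i ∈ range m, act (t ^ i) (k (act (t ^ i)⁻¹ x)) = x := by
    have : ∑ i ∈ range m, (actHom (t ^ i)).comp (k.comp (actHom (t ^ i)⁻¹)) =
        AddMonoidHom.id _ := by
      refine liftZ_ext fun γ => ?_
      simp only [AddMonoidHom.finsetSum_apply, AddMonoidHom.comp_apply, actHom_apply,
        AddMonoidHom.id_apply, act_single, k, liftZ_single, one_smul]
      rw [Finset.sum_eq_single (J γ)]
      · have h0 : J ((t ^ J γ)⁻¹ * γ) = 0 := by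
          symm
          apply huniq _ 0 hm
          have h1 : (t ^ J γ)⁻¹ * γ = σ γ := by
            conv_lhs => rw [hJ γ]
            rw [← mul_assoc]
            have : J (t ^ J γ * σ γ) = J γ := by rw [← hJ γ]
            rw [this]
            simp
          rw [pow_zero, one_mul, h1]
          have h2 := hσt' (J γ) (σ γ)
          rw [← hJ γ] at h2
          exact h2
        rw [if_pos h0, act_single]
        simp
      · intro i hi hne
        rw [if_neg, act_zero]
        intro h0
        apply hne
        apply huniq γ i (mem_range.1 hi)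
        have h1 := hJ ((t ^ i)⁻¹ * γ)
        rw [h0, pow_zero, one_mul] at h1
        have h2 : σ ((t ^ i)⁻¹ * γ) = σ γ := by
          have := hσt' i ((t ^ i)⁻¹ * γ)
          rw [mul_inv_cancel_left] at this
          exact this.symm
        rw [h2] at h1
        rw [← h1, mul_inv_cancel_left]
      · intro h0
        exact absurd (mem_range.2 (hJm γ)) h0
    intro x
    have := DFunLike.congr_fun this x
    simpa [AddMonoidHom.finsetSum_apply] using this
  refine ⟨k, h, map_zero k, map_zero h, fun x hx => ?_, fun x hx => ?_⟩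
  · have hinv : ∀ i : ℕ, act (t ^ i)⁻¹ x = x := by
      intro i
      have h1 : ∀ i : ℕ, act (t ^ i) x = x := by
        intro i
        induction i with
        | zero => simp
        | succ i ih => rw [pow_succ', act_mul, ih, hx]
      conv_lhs => rw [← h1 i]
      exact act_inv_act _ _
    have := I3 x
    simp only [hinv] at this
    rw [normHom_apply]
    exact this
  · have h1 := I2 x
    rw [hx, map_zero] at h1
    have h2 : p x = 0 := by
      have h3 : (m : ℤ) • p x = 0 := by rw [natCast_zsmul]; exact h1.symm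
      have h4 := MonoidAlgebra.coeff_inj.2 h3
      rw [MonoidAlgebra.coeff_smul, MonoidAlgebra.coeff_zero] at h4
      rcases smul_eq_zero.1 h4 with h5 | h5
      · exfalso; exact hm.ne' (by exact_mod_cast h5)
      · exact MonoidAlgebra.coeff_eq_zero.1 h5
    rw [I1, h2, sub_zero]

variable {C : Type v} [AddCommGroup C] [Module (MonoidAlgebra ℤ Γ) C]

theorem map_normHom {C' : Type*} [AddCommGroup C'] [Module (MonoidAlgebra ℤ Γ) C']
    (f : C →ₗ[MonoidAlgebra ℤ Γ] C') (t : Γ) (m : ℕ) (x : C) :
    f (normHom t m x) = normHom t m (f x) := by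
  simp only [normHom_apply, map_sum, map_act]

/-- exactness for projective modules -/
theorem projective_exact [Module.Projective (MonoidAlgebra ℤ Γ) C] (t : Γ) (m : ℕ) (hm : 0 < m)
    (ht : orderOf t = m) :
    (∀ x : C, act t x = x → ∃ y : C, normHom t m y = x) ∧
      (∀ x : C, normHom t m x = 0 → ∃ y : C, act t y - y = x) := by
  obtain ⟨s, hs⟩ := Module.Projective.out (R := MonoidAlgebra ℤ Γ) (P := C)
  obtain ⟨k, h, k0, h0, hk, hh⟩ := regular_exact t m hm ht
  have hact : ∀ (g : Γ) (f : C →₀ MonoidAlgebra ℤ Γ) (c : C), act g f c = act g (f c) := by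
    intro g f c
    simp [act_def]
  have hnorm : ∀ (f : C →₀ MonoidAlgebra ℤ Γ) (c : C), normHom t m f c = normHom t m (f c) := by
    intro f c
    simp [normHom_apply, hact, Finsupp.finsetSum_apply]
  constructor
  · intro x hx
    have h1 : act t (s x) = s x := by rw [← map_act, hx]
    refine ⟨Finsupp.linearCombination (MonoidAlgebra ℤ Γ) id ((s x).mapRange k k0), ?_⟩
    rw [← map_normHom]
    conv_rhs => rw [← hs x]
    congr 1
    ext1 c
    rw [hnorm, Finsupp.mapRange_apply]
    apply hk
    rw [← hact, h1]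
  · intro x hx
    have h1 : normHom t m (s x) = 0 := by rw [← map_normHom, hx, map_zero]
    refine ⟨Finsupp.linearCombination (MonoidAlgebra ℤ Γ) id ((s x).mapRange h h0), ?_⟩
    rw [← map_act, ← map_sub]
    conv_rhs => rw [← hs x]
    congr 1
    ext1 c
    rw [Finsupp.sub_apply, hact, Finsupp.mapRange_apply]
    apply hh
    rw [← hnorm, h1]
    rfl

/-- MS-11: a group with a finite projective resolution is torsion-free. -/
theorem torsion_free [Module.Projective (MonoidAlgebra ℤ Γ) C] (G : GrRes Γ C) (t : Γ) (q : ℕ)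
    (hq : 0 < q) (ht : t ^ q = 1) : t = 1 := by
  set m := orderOf t with hm
  have hm0 : 0 < m := orderOf_pos_iff.2 (isOfFinOrder_iff_pow_eq_one.2 ⟨q, hq, ht⟩)
  obtain ⟨P1, P2⟩ := projective_exact (C := C) t m hm0 rfl
  -- the two operators
  let T : ℕ → C →+ C := fun i => if Even i then actHom t - AddMonoidHom.id C else normHom t m
  have hper : normHom t m = (normHom t m).comp (actHom t : C →+ C) := by
    ext x
    rw [AddMonoidHom.comp_apply, normHom_apply, normHom_apply, actHom_apply]
    have h1 : ∀ i, act (t ^ i) (act t x) = act (t ^ (i + 1)) x := fun i => by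
      rw [← act_mul, ← pow_succ]
    simp only [h1]
    have h2 := Finset.sum_range_succ' (fun i => act (t ^ i) x) m
    have h3 := Finset.sum_range_succ (fun i => act (t ^ i) x) m
    rw [h3] at h2
    have h4 : act (t ^ m) x = act (t ^ 0) x := by
      rw [hm, pow_orderOf_eq_one, pow_zero]
    rw [h4] at h2
    exact add_right_cancel h2
  have hper' : normHom t m = (actHom t : C →+ C).comp (normHom t m) := by
    conv_lhs => rw [hper]
    ext x
    rw [AddMonoidHom.comp_apply, AddMonoidHom.comp_apply, normHom_apply, normHom_apply,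
      actHom_apply, actHom_apply, act_sum]
    refine Finset.sum_congr rfl fun i _ => ?_
    rw [← act_mul, ← act_mul, ← pow_succ, ← pow_succ']
  have hTT : ∀ i x, T (i + 1) (T i x) = 0 := by
    intro i x
    by_cases hi : Even i
    · have hi' : ¬ Even (i + 1) := by rw [Nat.even_add_one]; simpa using hi
      simp only [T, if_pos hi, if_neg hi', AddMonoidHom.sub_apply, AddMonoidHom.id_apply,
        map_sub, sub_eq_zero]
      exact (DFunLike.congr_fun hper x).symm
    · have hi' : Even (i + 1) := by rw [Nat.even_add_one]; simpa using hi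
      simp only [T, if_neg hi, if_pos hi', AddMonoidHom.sub_apply, AddMonoidHom.id_apply,
        sub_eq_zero]
      exact (DFunLike.congr_fun hper' x).symm
  have hT2 : ∀ i, T (i + 2) = T i := by
    intro i
    simp only [T, Nat.even_add, even_two, iff_true]
  have hTker : ∀ i x, T i x = 0 → ∃ y, T (i + 1) y = x := by
    intro i x hx
    by_cases hi : Even i
    · have hi' : ¬ Even (i + 1) := by rw [Nat.even_add_one]; simpa using hi
      simp only [T, if_pos hi, AddMonoidHom.sub_apply, AddMonoidHom.id_apply, sub_eq_zero] at hx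
      obtain ⟨y, hy⟩ := P1 x hx
      exact ⟨y, by simpa only [T, if_neg hi'] using hy⟩
    · have hi' : Even (i + 1) := by rw [Nat.even_add_one]; simpa using hi
      simp only [T, if_neg hi] at hx
      obtain ⟨y, hy⟩ := P2 x hx
      exact ⟨y, by simpa only [T, if_pos hi', AddMonoidHom.sub_apply, AddMonoidHom.id_apply,
        actHom_apply] using hy⟩
  have hTmap : ∀ (i : ℕ) (f : C →ₗ[MonoidAlgebra ℤ Γ] C) (x : C), f (T i x) = T i (f x) := by
    intro i f x
    by_cases hi : Even i
    · simp only [T, if_pos hi, AddMonoidHom.sub_apply, AddMonoidHom.id_apply, map_sub,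
        actHom_apply, map_act]
    · simp only [T, if_neg hi, map_normHom]
  have hεT : ∀ (i : ℕ) (x : C), G.π i x = x → G.ε (T i x) = 0 := by
    intro i x hx
    rcases Nat.eq_zero_or_pos i with rfl | hi
    · simp only [T, if_pos Even.zero, AddMonoidHom.sub_apply, AddMonoidHom.id_apply,
        actHom_apply, map_sub, G.ε_act, sub_self]
    · rw [← G.ε_π, hTmap, ← hx, G.π_ne 0 i x (by omega), map_zero, map_zero]
  have claim : ∀ k i : ℕ, G.n < i + k → ∀ w : C, G.π i w = w → T i (G.d w) = 0 →
      ∃ u v, w = G.d u + T (i + 1) v := by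
    intro k
    induction k with
    | zero =>
      intro i hi w hw _
      refine ⟨0, 0, ?_⟩
      rw [map_zero, map_zero, add_zero, ← hw]
      exact G.π_big i w (by exact_mod_cast hi)
    | succ k ih =>
      intro i hi w hw hdw
      obtain ⟨w', hw'⟩ := (G.exact (T i w)).1 ⟨by rw [hTmap, hdw], hεT i w hw⟩
      have e1 : G.d (G.π ((i + 1 : ℕ) : ℤ) w') = T i w := by
        rw [G.d_π, hw']
        have : (((i + 1 : ℕ) : ℤ) - 1) = i := by push_cast; ring
        rw [this, hTmap, hw]
      obtain ⟨u, v, huv⟩ := ih (i + 1) (by omega) (G.π ((i + 1 : ℕ) : ℤ) w')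
        (G.π_self _ _) (by rw [e1, hTT])
      have e2 : T i (w - G.d v) = 0 := by
        rw [map_sub, ← e1, huv, map_add, ← hTmap]
        have hdd : G.d (G.d u) = 0 := ((G.exact (G.d u)).2 ⟨u, rfl⟩).1
        rw [hdd, zero_add, hT2, sub_self]
      obtain ⟨v', hv'⟩ := hTker i _ e2
      exact ⟨v, v', by rw [hv']; abel⟩
  obtain ⟨y, hy⟩ := G.ε_surj 1
  have hd0 : G.d (G.π 0 y) = 0 := by
    rw [G.d_π]
    exact G.π_neg _ _ (by norm_num)
  obtain ⟨u, v, huv⟩ := claim (G.n + 1) 0 (by omega) (G.π 0 y) (G.π_self _ _)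
    (by rw [hd0, map_zero])
  have h1 : G.ε (G.π 0 y) = G.ε (G.d u) + G.ε (T (0 + 1) v) := by rw [← map_add, ← huv]
  have h2 : G.ε (G.d u) = 0 := ((G.exact (G.d u)).2 ⟨u, rfl⟩).2
  have h3 : G.ε (T (0 + 1) v) = m * G.ε v := by
    have : ¬ Even (0 + 1) := by decide
    simp only [T, if_neg this, normHom_apply, map_sum, G.ε_act]
    simp
  rw [G.ε_π, hy, h2, h3, zero_add] at h1
  have h4 : (m : ℤ) ∣ 1 := ⟨_, h1⟩
  have h5 : m = 1 := by
    have := Int.natAbs_dvd_natAbs.2 h4
    simpa using this
  exact orderOf_eq_one_iff.1 h5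

end

end Pool.Agent.Helper27.Mess
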