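import Pool.Agent.Helper27.Mess.Defs

set_option autoImplicit false

namespace Pool.Agent.Helper27.Mess

open Finset

universe u v w

variable {Γ : Type u} [Group Γ] {C : Type v} [AddCommGroup C] [Module (MonoidAlgebra ℤ Γ) C]

/-- the translate of an additive map by a group element -/
noncomputable def translate {O : Type w} [CommRing O] (g : C →+ O) (γ : Γ) : C →+ O where
  toFun x := g (act γ⁻¹ x)
  map_zero' := by rw [act_zero, map_zero]
  map_add' x y := by rw [act_add, map_add]

theorem translate_apply {O : Type w} [CommRing O] (g : C →+ O) (γ : Γ) (x : C) :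
    translate g γ x = g (act γ⁻¹ x) := rfl

section D

variable {G : GrRes Γ C} {r : ℕ} {a : Fin r → Subgroup.center Γ} (S : DSys G a)
  {O : Type w} [CommRing O]

theorem D_translate (β : Fin r → O) (g : C →+ O) (γ : Γ) :
    S.D β (translate g γ) = translate (S.D β g) γ := by
  ext x
  rw [translate_apply, DSys.D_apply, DSys.D_apply]
  refine Finset.sum_congr rfl fun k _ => ?_
  rw [translate_apply, map_act]

/-- MS-6a: transfer. -/
theorem transfer (H : Subgroup Γ) [H.FiniteIndex] (β : Fin r → O) (f g : C →+ O)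
    (hf : f ∈ Inv (⊤ : Subgroup Γ) C O) (hg : g ∈ Inv H C O) (h : S.D β g = f) :
    ∃ g' ∈ Inv (⊤ : Subgroup Γ) C O, S.D β g' = ((H.index : ℕ) : O) • f := by
  classical
  letI : Fintype (Γ ⧸ H) := H.fintypeQuotientOfFiniteIndex
  have hwd : ∀ γ γ' : Γ, (γ : Γ ⧸ H) = (γ' : Γ ⧸ H) → translate g γ = translate g γ' := by
    intro γ γ' he
    ext x
    rw [translate_apply, translate_apply]
    have h1 : γ⁻¹ * γ' ∈ H := QuotientGroup.eq.1 he
    have h2 := hg _ h1 (act γ'⁻¹ x)
    rw [← act_mul, mul_assoc, mul_inv_cancel, mul_one] at h2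
    exact h2
  refine ⟨∑ c : Γ ⧸ H, translate g c.out, ?_, ?_⟩
  · intro δ _ x
    rw [AddMonoidHom.finsetSum_apply, AddMonoidHom.finsetSum_apply]
    rw [← Equiv.sum_comp (MulAction.toPerm δ : Equiv.Perm (Γ ⧸ H))
      (fun c => translate g c.out (act δ x))]
    refine Finset.sum_congr rfl fun c _ => ?_
    have h1 : translate g ((MulAction.toPerm δ : Equiv.Perm (Γ ⧸ H)) c).out =
        translate g (δ * c.out) := by
      apply hwd
      rw [QuotientGroup.out_eq', MulAction.toPerm_apply]
      conv_lhs => rw [← QuotientGroup.out_eq' c]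
      rfl
    rw [h1, translate_apply, translate_apply, ← act_mul]
    congr 2
    group
  · rw [map_sum]
    have h1 : ∀ c : Γ ⧸ H, S.D β (translate g c.out) = f := by
      intro c
      rw [D_translate, h]
      ext x
      rw [translate_apply]
      exact hf _ (Subgroup.mem_top _) x
    simp only [h1]
    rw [Finset.sum_const, Finset.card_univ, Subgroup.index_eq_card, Nat.card_eq_fintype_card,
      Nat.cast_smul_eq_nsmul]

end D

/-- MS-6b: functionals invariant under a subgroup of finite index are determined by finitely many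
values. -/
theorem exists_determining [Module.Finite (MonoidAlgebra ℤ Γ) C] (H : Subgroup Γ)
    [H.FiniteIndex] :
    ∃ (m : ℕ) (c : Fin m → C), ∀ (O : Type w) [CommRing O], ∀ f ∈ Inv H C O,
      (∀ i, f (c i) = 0) → f = 0 := by
  classical
  letI : Fintype (Γ ⧸ H) := H.fintypeQuotientOfFiniteIndex
  obtain ⟨s, hs⟩ := Module.Finite.fg_top (R := MonoidAlgebra ℤ Γ) (M := C)
  let e := Fintype.equivFin ((Γ ⧸ H) × s)
  refine ⟨Fintype.card ((Γ ⧸ H) × s), fun i => act ((e.symm i).1.out)⁻¹ ((e.symm i).2 : C), ?_⟩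
  intro O _ f hf hzero
  have h1 : ∀ (x : s) (γ : Γ), f (act γ (x : C)) = 0 := by
    intro x γ
    set c : Γ ⧸ H := ((γ⁻¹ : Γ) : Γ ⧸ H) with hc
    have h2 : (γ⁻¹)⁻¹ * c.out ∈ H := QuotientGroup.eq.1 (by rw [QuotientGroup.out_eq'])
    rw [inv_inv] at h2
    have h3 := hzero (e (c, x))
    beta_reduce at h3
    rw [Equiv.symm_apply_apply] at h3
    have h4 := hf _ h2 (act (c.out)⁻¹ (x : C))
    rw [← act_mul, mul_assoc, mul_inv_cancel, mul_one] at h4
    rw [h4]
    exact h3
  have h2 : ∀ x : C, ∀ γ : Γ, f (act γ x) = 0 := by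
    intro x
    have hx : x ∈ Submodule.span (MonoidAlgebra ℤ Γ) (s : Set C) := by rw [hs]; trivial
    induction hx using Submodule.span_induction with
    | mem x h => exact h1 ⟨x, h⟩
    | zero => intro γ; rw [act_zero, map_zero]
    | add x y _ _ hx hy => intro γ; rw [act_add, map_add, hx, hy, add_zero]
    | smul a x _ hx =>
      intro γ
      rw [act_def, ← mul_smul, smul_eq_sum, map_sum]
      refine Finset.sum_eq_zero fun g _ => ?_
      rw [map_zsmul, hx, smul_zero]
  ext x
  have := h2 x 1
  rwa [act_one] at this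

end Pool.Agent.Helper27.Mess
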